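import Pool.Agent.L0h38.TM.Stm

/-! # Products of families with small windows and tame orbits -/

set_option autoImplicit false

open Filter Topology Finset MeasureTheory
open Pool.Agent.R296.SM

namespace Pool.Agent.L0h38.TM

universe u

section inv

variable {X : Type} [MetricSpace X] [CompactSpace X] [MeasurableSpace X] [BorelSpace X] {T : X → X}

lemma inv_int (hT : Continuous T) {ν : Measure X} (hp : MeasurePreserving T ν ν) (f : C(X, ℂ)) (j k d : ℕ) :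
    ∫ x, f (T^[j + d] x) * (starRingEnd ℂ) (f (T^[k + d] x)) ∂ν =
      ∫ x, f (T^[j] x) * (starRingEnd ℂ) (f (T^[k] x)) ∂ν := by
  have hfc : ∀ n : ℕ, Continuous fun x => f (T^[n] x) := fun n => f.continuous.comp (hT.iterate n)
  have hmap : Measure.map (T^[d]) ν = ν := (hp.iterate d).map_eq
  have hc : Continuous fun x => f (T^[j] x) * (starRingEnd ℂ) (f (T^[k] x)) :=
    (hfc j).mul (Complex.continuous_conj.comp (hfc k))
  have h2 : ∫ x, f (T^[j] x) * (starRingEnd ℂ) (f (T^[k] x)) ∂(Measure.map (T^[d]) ν) =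
      ∫ x, f (T^[j] (T^[d] x)) * (starRingEnd ℂ) (f (T^[k] (T^[d] x))) ∂ν :=
    integral_map (hT.iterate d).measurable.aemeasurable hc.aestronglyMeasurable
  rw [hmap] at h2
  rw [h2]
  refine integral_congr_ae (ae_of_all _ fun x => ?_)
  show f (T^[j + d] x) * (starRingEnd ℂ) (f (T^[k + d] x)) = _
  rw [Function.iterate_add_apply, Function.iterate_add_apply]

lemma mom (hT : Continuous T) {ν : Measure X} (hp : MeasurePreserving T ν ν) {f : C(X, ℂ)}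
    {σ : Measure UnitAddCircle} (hσ : SpX T ν f σ) (n m : ℕ) :
    ∫ x, f (T^[n] x) * (starRingEnd ℂ) (f (T^[m] x)) ∂ν =
      ∫ η, (fourier (n : ℤ) η : ℂ) * (starRingEnd ℂ) (fourier (m : ℤ) η : ℂ) ∂σ := by
  have key : ∀ m d : ℕ, ∫ x, f (T^[m + d] x) * (starRingEnd ℂ) (f (T^[m] x)) ∂ν =
      ∫ η, (fourier ((m + d : ℕ) : ℤ) η : ℂ) * (starRingEnd ℂ) (fourier (m : ℤ) η : ℂ) ∂σ := by
    intro m d
    have h1 := inv_int hT hp f d 0 m
    rw [add_comm d m, zero_add] at h1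
    rw [h1]
    have h2 := hσ d
    simp only [Function.iterate_zero, id_eq] at h1 ⊢
    rw [h2]
    refine integral_congr_ae (ae_of_all _ fun η => ?_)
    show (fourier (d : ℤ) η : ℂ) = fourier ((m + d : ℕ) : ℤ) η * (starRingEnd ℂ) (fourier (m : ℤ) η : ℂ)
    rw [← fourier_neg, ← fourier_add]
    congr 2
    push_cast
    ring
  rcases le_total m n with h | h
  · obtain ⟨d, rfl⟩ := Nat.exists_eq_add_of_le h
    exact key m d
  · obtain ⟨d, rfl⟩ := Nat.exists_eq_add_of_le h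
    have h1 := congrArg (starRingEnd ℂ) (key n d)
    rw [← integral_conj, ← integral_conj] at h1
    simp only [map_mul, Complex.conj_conj] at h1
    calc ∫ x, f (T^[n] x) * (starRingEnd ℂ) (f (T^[n + d] x)) ∂ν =
        ∫ x, (starRingEnd ℂ) (f (T^[n + d] x)) * f (T^[n] x) ∂ν := by simp_rw [mul_comm]
      _ = _ := h1
      _ = _ := by simp_rw [mul_comm]

lemma sq_int (hT : Continuous T) {ν : Measure X} [IsProbabilityMeasure ν] (hp : MeasurePreserving T ν ν) {f : C(X, ℂ)}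
    {σ : Measure UnitAddCircle} [IsFiniteMeasure σ] (hσ : SpX T ν f σ) (n m : ℕ) :
    ∫ x, ‖f (T^[n] x) - f (T^[m] x)‖ ^ 2 ∂ν =
      ∫ η, ‖(fourier (n : ℤ) η : ℂ) - fourier (m : ℤ) η‖ ^ 2 ∂σ := by
  have hfc : ∀ n : ℕ, Continuous fun x => f (T^[n] x) := fun n => f.continuous.comp (hT.iterate n)
  have hint : ∀ j k : ℕ, Integrable (fun x => f (T^[j] x) * (starRingEnd ℂ) (f (T^[k] x))) ν := by
    intro j k
    have hc : Continuous fun x => f (T^[j] x) * (starRingEnd ℂ) (f (T^[k] x)) :=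
      (hfc j).mul (Complex.continuous_conj.comp (hfc k))
    exact (BoundedContinuousFunction.mkOfCompact ⟨_, hc⟩).integrable ν
  have hint2 : ∀ j k : ℕ, Integrable (fun η : UnitAddCircle =>
      (fourier (j : ℤ) η : ℂ) * (starRingEnd ℂ) (fourier (k : ℤ) η : ℂ)) σ := by
    intro j k
    have hc : Continuous fun η : UnitAddCircle =>
        (fourier (j : ℤ) η : ℂ) * (starRingEnd ℂ) (fourier (k : ℤ) η : ℂ) :=
      (map_continuous (fourier (j : ℤ))).mul (Complex.continuous_conj.comp (map_continuous (fourier (k : ℤ))))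
    exact (BoundedContinuousFunction.mkOfCompact ⟨_, hc⟩).integrable σ
  have e1 : ∀ a b : ℂ, ((‖a - b‖ ^ 2 : ℝ) : ℂ) = a * (starRingEnd ℂ) a - a * (starRingEnd ℂ) b -
      b * (starRingEnd ℂ) a + b * (starRingEnd ℂ) b := by
    intro a b
    push_cast
    rw [← Complex.mul_conj', map_sub]
    ring
  apply Complex.ofReal_injective
  rw [← integral_complex_ofReal, ← integral_complex_ofReal]
  simp_rw [e1]
  rw [integral_add, integral_sub, integral_sub, integral_add, integral_sub, integral_sub, mom hT hp hσ n n,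
    mom hT hp hσ n m, mom hT hp hσ m n, mom hT hp hσ m m]
  · exact hint2 _ _
  · exact hint2 _ _
  · exact (hint2 _ _).sub (hint2 _ _)
  · exact hint2 _ _
  · exact ((hint2 _ _).sub (hint2 _ _)).sub (hint2 _ _)
  · exact hint2 _ _
  · exact hint _ _
  · exact hint _ _
  · exact (hint _ _).sub (hint _ _)
  · exact hint _ _
  · exact ((hint _ _).sub (hint _ _)).sub (hint _ _)
  · exact hint _ _

end inv

section tame

variable {X : Type u} [NormedAddCommGroup X] [NormedSpace ℂ X]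

/-- the orbit is tame -/
def Tame (T : X →L[ℂ] X) (x : X) : Prop :=
  ∀ k : ℕ → ℕ, ∃ φ : ℕ → ℕ, StrictMono φ ∧ ∀ ρ : X →L[ℂ] ℂ, CauchySeq fun j => ρ ((T ^ k (φ j)) x)

/-- the functionals -/
def Bd (T : X →L[ℂ] X) (M : ℝ) : Set (WeakDual ℂ X) := {ρ | ∀ (n : ℕ) (y : X), ‖ρ ((T ^ n) y)‖ ≤ M * ‖y‖}

lemma Bd_compact (T : X →L[ℂ] X) (M : ℝ) : IsCompact (Bd T M) := by
  refine IsCompact.of_isClosed_subset (WeakDual.isCompact_closedBall (𝕜 := ℂ) (E := X) 0 (max M 0)) ?_ ?_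
  · unfold Bd
    simp only [Set.ofPred_forall]
    refine isClosed_iInter fun n => isClosed_iInter fun y => ?_
    exact isClosed_le (WeakDual.eval_continuous _).norm continuous_const
  · intro ρ hρ
    show (WeakDual.toStrongDual ρ : StrongDual ℂ X) ∈ Metric.closedBall (0 : StrongDual ℂ X) (max M 0)
    rw [mem_closedBall_zero_iff]
    refine ContinuousLinearMap.opNorm_le_bound _ (le_max_right _ _) fun y => ?_
    have h1 := hρ 0 y
    rw [pow_zero] at h1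
    exact h1.trans (mul_le_mul_of_nonneg_right (le_max_left _ _) (norm_nonneg _))

/-- the orbit sequences -/
def OS (T : X →L[ℂ] X) (M : ℝ) (x : X) : Set (ℕ → ℂ) := (fun (ρ : WeakDual ℂ X) n => ρ ((T ^ n) x)) '' Bd T M

lemma OS_compact (T : X →L[ℂ] X) (M : ℝ) (x : X) : IsCompact (OS T M x) :=
  (Bd_compact T M).image (continuous_pi fun n => WeakDual.eval_continuous _)

lemma OS_shift {T : X →L[ℂ] X} {M : ℝ} {x : X} {z : ℕ → ℂ} (hz : z ∈ OS T M x) : (fun n => z (n + 1)) ∈ OS T M x := by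
  obtain ⟨ρ, hρ, rfl⟩ := hz
  refine ⟨(ContinuousLinearMap.comp (WeakDual.toStrongDual ρ) T : X →L[ℂ] ℂ), fun n y => ?_, ?_⟩
  · have := hρ (n + 1) y
    rw [pow_succ'] at this
    exact this
  · funext n
    show ρ (T ((T ^ n) x)) = ρ ((T ^ (n + 1)) x)
    rw [pow_succ']
    rfl

end tame

lemma norm_tw' {g : ℕ → ℂ} (hg : ∀ n, ‖g n‖ ≤ 1) (θ : UnitAddCircle) (n : ℕ) : ‖tw g θ n‖ ≤ 1 := by
  unfold tw
  rw [norm_mul, fourier_apply, Circle.norm_coe, mul_one]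
  exact hg n

lemma Tw_le {G : Set (ℕ → ℂ)} (hG : ∀ g ∈ G, ∀ n, ‖g n‖ ≤ 1) : ∀ h ∈ Tw G, ∀ n, ‖h n‖ ≤ 1 := by
  rintro _ ⟨g, hg, θ, rfl⟩ n
  exact norm_tw' (hG g hg) θ n

/-- the abstract system -/
lemma djK (hh : S_HZX) (ha : S_ATM) (hg : S_GAL) (ht : S_TBD) {K : Type} [MetricSpace K] [CompactSpace K]
    {τ : K → K} (hτ : Continuous τ) (F : K → ℂ) (hF : Continuous F)
    (hf : ∀ k : ℕ → ℕ, ∃ φ : ℕ → ℕ, StrictMono φ ∧ ∀ z, CauchySeq fun j => F (τ^[k (φ j)] z))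
    {ι : Type u} (p : ι → K) {G : Set (ℕ → ℂ)} (hG : ∀ g ∈ G, ∀ n, ‖g n‖ ≤ 1) (hS : Small G) :
    DjU ∅ (Tw G) (fun i m => F (τ^[m.toNat] (p i))) := by
  letI : MeasurableSpace K := borel K
  haveI : BorelSpace K := ⟨rfl⟩
  obtain ⟨f, rfl⟩ : ∃ f : C(K, ℂ), F = f := ⟨⟨F, hF⟩, rfl⟩
  refine DjX hτ p ∅ (Tw G) (Tw_le hG) {f} (fun ν h1 h2 _ g hgf => ?_) (subset_closure (Submodule.subset_span rfl))
  rw [Set.mem_singleton_iff] at hgf
  subst hgf
  obtain ⟨σ, hσ, hsp⟩ := hh K τ hτ ν h1 h2 g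
  obtain ⟨S, hSc, hS0⟩ := ha σ hσ (fun ε hε => by
    obtain ⟨F, hF⟩ := ht K ν h1 (fun n z => g (τ^[n] z))
      (fun n => (g.continuous.comp (hτ.iterate n)).measurable) ⟨‖g‖, fun n z => g.norm_coe_le_norm _⟩ hf ε hε
    refine ⟨F, fun n => ?_⟩
    obtain ⟨m, hm, h⟩ := hF n
    exact ⟨m, hm, by rw [← sq_int hτ h2 hsp]; exact h⟩)
  exact ⟨σ, hσ, hsp, fun δ hδ => hg G hG hS σ hσ S hSc hS0 δ hδ⟩

section main

variable {X : Type u} [NormedAddCommGroup X] [NormedSpace ℂ X]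

/-- the orbits, tested by the functionals of the unit ball -/
noncomputable def wv (T : X →L[ℂ] X) (x : X) (ρ : {ρ : X →L[ℂ] ℂ // ‖ρ‖ ≤ 1}) (m : ℤ) : ℂ := ρ.1 ((T ^ m.toNat) x)

lemma wv_le {T : X →L[ℂ] X} {M : ℝ} (hM : ∀ n, ‖T ^ n‖ ≤ M) (x : X) (ρ : {ρ : X →L[ℂ] ℂ // ‖ρ‖ ≤ 1}) (m : ℤ) :
    ‖wv T x ρ m‖ ≤ M * ‖x‖ := by
  unfold wv
  calc ‖ρ.1 ((T ^ m.toNat) x)‖ ≤ ‖ρ.1‖ * ‖(T ^ m.toNat) x‖ := ρ.1.le_opNorm _
    _ ≤ 1 * ‖(T ^ m.toNat) x‖ := mul_le_mul_of_nonneg_right ρ.2 (norm_nonneg _)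
    _ = ‖(T ^ m.toNat) x‖ := one_mul _
    _ ≤ ‖T ^ m.toNat‖ * ‖x‖ := (T ^ m.toNat).le_opNorm _
    _ ≤ M * ‖x‖ := mul_le_mul_of_nonneg_right (hM _) (norm_nonneg _)

theorem djT (hh : S_HZX) (ha : S_ATM) (hg : S_GAL) (ht : S_TBD) {T : X →L[ℂ] X} {M : ℝ} (hM : ∀ n, ‖T ^ n‖ ≤ M)
    {x : X} (hx : Tame T x) {G : Set (ℕ → ℂ)} (hG : ∀ g ∈ G, ∀ n, ‖g n‖ ≤ 1) (hS : Small G) :
    DjU ∅ (Tw G) (wv T x) := by
  have hc : CompactSpace (OS T M x) := isCompact_iff_compactSpace.1 (OS_compact T M x)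
  obtain ⟨τ, hτ⟩ : ∃ τ : OS T M x → OS T M x, ∀ z n, (τ z).1 n = z.1 (n + 1) :=
    ⟨fun z => ⟨fun n => z.1 (n + 1), OS_shift z.2⟩, fun z n => rfl⟩
  have hτc : Continuous τ := by
    refine continuous_induced_rng.2 (continuous_pi fun n => ?_)
    have : (fun z => (Subtype.val ∘ τ) z n) = fun z : OS T M x => z.1 (n + 1) := by
      funext z
      exact hτ z n
    rw [this]
    exact (continuous_apply (n + 1)).comp continuous_subtype_val
  have hit : ∀ (n : ℕ) (z : OS T M x) (m : ℕ), (τ^[n] z).1 m = z.1 (m + n) := by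
    intro n
    induction n with
    | zero => intro z m; rfl
    | succ n ih =>
      intro z m
      rw [Function.iterate_succ_apply', hτ, ih]
      exact congrArg z.1 (by omega)
  have hfc : Continuous fun z : OS T M x => z.1 0 := (continuous_apply 0).comp continuous_subtype_val
  have hfn : ∀ (n : ℕ) (z : OS T M x), (τ^[n] z).1 0 = z.1 n := by
    intro n z
    rw [hit, zero_add]
  have hp : ∀ ρ : {ρ : X →L[ℂ] ℂ // ‖ρ‖ ≤ 1}, (fun n => ρ.1 ((T ^ n) x)) ∈ OS T M x := by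
    intro ρ
    refine ⟨(StrongDual.toWeakDual ρ.1 : WeakDual ℂ X), fun n y => ?_, rfl⟩
    exact wv_le hM y ρ n
  have hk : ∀ k : ℕ → ℕ, ∃ φ : ℕ → ℕ, StrictMono φ ∧ ∀ z : OS T M x, CauchySeq fun j => (τ^[k (φ j)] z).1 0 := by
    intro k
    obtain ⟨φ, h1, h2⟩ := hx k
    refine ⟨φ, h1, fun z => ?_⟩
    simp_rw [hfn]
    obtain ⟨ρ, -, hρ⟩ := z.2
    have h3 := h2 (WeakDual.toStrongDual ρ)
    have h4 : (fun j => z.1 (k (φ j))) = fun j => (WeakDual.toStrongDual ρ) ((T ^ k (φ j)) x) := by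
      funext j
      rw [← hρ]
      rfl
    rw [h4]
    exact h3
  have key := @djK hh ha hg ht (OS T M x) (TopologicalSpace.metrizableSpaceMetric (OS T M x)) hc
    τ hτc (fun z => z.1 0) hfc hk {ρ : X →L[ℂ] ℂ // ‖ρ‖ ≤ 1} (fun ρ => ⟨_, hp ρ⟩) G hG hS
  simp_rw [hfn] at key
  exact key

theorem djC (hh : S_HZX) (ha : S_ATM) (hg : S_GAL) (ht : S_TBD) {T : X →L[ℂ] X} {M : ℝ} (hM : ∀ n, ‖T ^ n‖ ≤ M)
    {G : Set (ℕ → ℂ)} (hG : ∀ g ∈ G, ∀ n, ‖g n‖ ≤ 1) (hS : Small G) {x : X}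
    (hx : x ∈ closure (Submodule.span ℂ {x | Tame T x} : Set X)) : DjU ∅ (Tw G) (wv T x) := by
  have h2 : ∀ x ∈ Submodule.span ℂ {x | Tame T x}, DjU ∅ (Tw G) (wv T x) := by
    intro x hx
    induction hx using Submodule.span_induction with
    | mem x hx => exact djT hh ha hg ht hM hx hG hS
    | zero =>
      have e : wv T (0 : X) = fun _ _ => 0 := by
        funext ρ m
        unfold wv
        rw [map_zero, map_zero]
      rw [e]
      exact DjU.zero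
    | add x y _ _ ihx ihy =>
      have e : wv T (x + y) = fun ρ m => wv T x ρ m + wv T y ρ m := by
        funext ρ m
        unfold wv
        rw [map_add, map_add]
      rw [e]
      exact ihx.add ihy
    | smul c x _ ih =>
      have e : wv T (c • x) = fun ρ m => c • wv T x ρ m := by
        funext ρ m
        unfold wv
        rw [map_smul, map_smul]
      rw [e]
      exact ih.smul c
  have hM0 : 0 ≤ M := (norm_nonneg _).trans (hM 0)
  refine DjU.lim (Tw_le hG) fun η hη => ?_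
  rw [Metric.mem_closure_iff] at hx
  obtain ⟨y, hy, hd⟩ := hx (η / (M + 1)) (by positivity)
  refine ⟨wv T y, h2 y hy, fun ρ m => ?_⟩
  have e : wv T x ρ m - wv T y ρ m = wv T (x - y) ρ m := by
    unfold wv
    rw [map_sub, map_sub]
  rw [e]
  refine (wv_le hM _ ρ m).trans ?_
  rw [dist_eq_norm] at hd
  calc M * ‖x - y‖ ≤ (M + 1) * (η / (M + 1)) := mul_le_mul (by linarith) hd.le (norm_nonneg _) (by linarith)
    _ = η := by field_simp

lemma conv_w (T : X →L[ℂ] X) (x : X) (ρ : {ρ : X →L[ℂ] ℂ // ‖ρ‖ ≤ 1}) (h : ℕ → ℂ) (a b : ℕ) :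
    ∑ m ∈ Ioc a b, h m * ρ.1 ((T ^ m) x) = ∑ m ∈ Ioc (a : ℤ) b, ext0 h m • wv T x ρ m := by
  refine sum_nbij' (fun n : ℕ => (n : ℤ)) (fun m : ℤ => m.toNat) ?_ ?_ ?_ ?_ ?_
  · intro n hn
    rw [mem_Ioc] at hn ⊢
    omega
  · intro m hm
    rw [mem_Ioc] at hm ⊢
    omega
  · intro n _; simp
  · intro m hm
    rw [mem_Ioc] at hm
    omega
  · intro n hn
    rw [mem_Ioc] at hn
    rw [ext0, if_pos (by omega)]
    simp [wv]

/-- **Windows.** -/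
theorem small_mul (hh : S_HZX) (ha : S_ATM) (hg : S_GAL) (ht : S_TBD) {T : X →L[ℂ] X} {M : ℝ}
    (hM : ∀ n, ‖T ^ n‖ ≤ M) {G : Set (ℕ → ℂ)} (hG : ∀ g ∈ G, ∀ n, ‖g n‖ ≤ 1) (hS : Small G) {x : X}
    (hx : x ∈ closure (Submodule.span ℂ {x | Tame T x} : Set X)) :
    Small {h | ∃ g ∈ G, ∃ ρ : X →L[ℂ] ℂ, ‖ρ‖ ≤ 1 ∧ h = fun n => g n * ρ ((T ^ n) x)} := by
  intro ε hε
  obtain ⟨H, hH1, h1⟩ := djC hh ha hg ht hM hG hS hx ε hε
  refine ⟨H, hH1, H * H, fun N hN => ?_⟩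
  rintro _ ⟨g, hgG, ρ, hρ, rfl⟩ θ
  refine le_trans (le_of_eq ?_) (h1 H le_rfl N hN (Set.notMem_empty N) (tw g θ) ⟨g, hgG, θ, rfl⟩ ⟨ρ, hρ⟩)
  refine sum_congr rfl fun y _ => ?_
  congr 2
  have e := conv_w T x ⟨ρ, hρ⟩ (tw g θ) y (y + H)
  rw [Nat.cast_add] at e
  rw [← e]
  refine sum_congr rfl fun m _ => ?_
  unfold tw
  ring

/-- **Long averages.** -/
theorem long_avg (hh : S_HZX) (ha : S_ATM) (hg : S_GAL) (ht : S_TBD) {T : X →L[ℂ] X} {M : ℝ}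
    (hM : ∀ n, ‖T ^ n‖ ≤ M) {G : Set (ℕ → ℂ)} (hG : ∀ g ∈ G, ∀ n, ‖g n‖ ≤ 1) (hS : Small G) {x : X}
    (hx : x ∈ closure (Submodule.span ℂ {x | Tame T x} : Set X)) (ε : ℝ) (hε : 0 < ε) :
    ∃ N₀ : ℕ, ∀ N ≥ N₀, ∀ g ∈ G, ∀ θ : UnitAddCircle, ‖∑ n ∈ Icc 1 N, tw g θ n • (T ^ n) x‖ ≤ ε * N := by
  obtain ⟨N₀, h1⟩ := (djC hh ha hg ht hM hG hS hx).long (Tw_le hG) (fun ρ m => wv_le hM x ρ m) ε hε
  refine ⟨N₀, fun N hN g hgG θ => ?_⟩
  obtain ⟨ρ, hρ1, hρ2⟩ := exists_dual_vector'' ℂ (∑ n ∈ Icc 1 N, tw g θ n • (T ^ n) x)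
  have h2 := h1 N hN (Set.notMem_empty N) (tw g θ) ⟨g, hgG, θ, rfl⟩ ⟨ρ, hρ1⟩
  have e := conv_w T x ⟨ρ, hρ1⟩ (tw g θ) 0 N
  rw [Nat.cast_zero] at e
  rw [← e] at h2
  have e2 : ρ (∑ n ∈ Icc 1 N, tw g θ n • (T ^ n) x) = ∑ m ∈ Ioc 0 N, tw g θ m * ρ ((T ^ m) x) := by
    rw [map_sum]
    refine sum_congr rfl fun n _ => ?_
    rw [map_smul, smul_eq_mul]
  rw [← e2, hρ2] at h2
  simpa using h2

end main

end Pool.Agent.L0h38.TM
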