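import Pool.Agent.L0h38.TM.DBL

/-! # Bounded families; functions with values in a normed space -/

set_option autoImplicit false

open Filter Topology Finset MeasureTheory
open Pool.Agent.R296.SM

namespace Pool.Agent.L0h38.TM

universe u v

section scale

variable {X : Type u} [NormedAddCommGroup X] [NormedSpace ℂ X]

lemma tw_scale (c : ℂ) (g : ℕ → ℂ) (θ : UnitAddCircle) (n : ℕ) : tw (fun n => c * g n) θ n = c * tw g θ n := by
  unfold tw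
  ring

lemma small_scale {G : Set (ℕ → ℂ)} (hS : Small G) {c : ℂ} (hc : ‖c‖ ≤ 1) :
    Small {s | ∃ g ∈ G, s = fun n => c * g n} := by
  intro ε hε
  obtain ⟨H, hH, N₀, h⟩ := hS ε hε
  refine ⟨H, hH, N₀, fun N hN => ?_⟩
  rintro _ ⟨g, hg, rfl⟩ θ
  refine le_trans (sum_le_sum fun x _ => ?_) (h N hN g hg θ)
  simp_rw [tw_scale]
  rw [← mul_sum, norm_mul, mul_pow]
  calc ‖c‖ ^ 2 * ‖∑ m ∈ Ioc x (x + H), tw g θ m‖ ^ 2 ≤ 1 * ‖∑ m ∈ Ioc x (x + H), tw g θ m‖ ^ 2 := by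
        apply mul_le_mul_of_nonneg_right _ (sq_nonneg _)
        nlinarith [norm_nonneg c]
    _ = _ := one_mul _

theorem small_mulC (hh : S_HZX) (ha : S_ATM) (hg : S_GAL) (ht : S_TBD) {T : X →L[ℂ] X} {M : ℝ}
    (hM : ∀ n, ‖T ^ n‖ ≤ M) {G : Set (ℕ → ℂ)} {C : ℝ} (hC : 1 ≤ C) (hG : ∀ g ∈ G, ∀ n, ‖g n‖ ≤ C) (hS : Small G)
    {x : X} (hx : x ∈ closure (Submodule.span ℂ {x | Tame T x} : Set X)) :
    Small {h | ∃ g ∈ G, ∃ ρ : X →L[ℂ] ℂ, ‖ρ‖ ≤ 1 ∧ h = fun n => g n * ρ ((T ^ n) x)} := by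
  have hC0 : 0 < C := by linarith
  have hcn : ‖((C⁻¹ : ℝ) : ℂ)‖ = C⁻¹ := by rw [Complex.norm_real, Real.norm_of_nonneg (by positivity)]
  have h1 := small_mul hh ha hg ht hM (G := {s | ∃ g ∈ G, s = fun n => ((C⁻¹ : ℝ) : ℂ) * g n}) (by
    rintro _ ⟨g, hgG, rfl⟩ n
    show ‖((C⁻¹ : ℝ) : ℂ) * g n‖ ≤ 1
    rw [norm_mul, hcn, inv_mul_le_iff₀ hC0, mul_one]
    exact hG g hgG n) (small_scale hS (by rw [hcn]; exact inv_le_one_of_one_le₀ hC)) hx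
  intro ε hε
  obtain ⟨H, hH, N₀, h⟩ := h1 (ε / C ^ 2) (by positivity)
  refine ⟨H, hH, N₀, fun N hN => ?_⟩
  rintro _ ⟨g, hgG, ρ, hρ, rfl⟩ θ
  have h2 := h N hN _ ⟨_, ⟨g, hgG, rfl⟩, ρ, hρ, rfl⟩ θ
  have e : ∀ m : ℕ, tw (fun n => ((C⁻¹ : ℝ) : ℂ) * g n * ρ ((T ^ n) x)) θ m =
      ((C⁻¹ : ℝ) : ℂ) * tw (fun n => g n * ρ ((T ^ n) x)) θ m := by
    intro m
    unfold tw
    ring
  simp_rw [e, ← mul_sum, norm_mul, mul_pow, ← mul_sum, hcn] at h2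
  calc ∑ y ∈ range N, ‖∑ m ∈ Ioc y (y + H), tw (fun n => g n * ρ ((T ^ n) x)) θ m‖ ^ 2 =
      C ^ 2 * ((C⁻¹) ^ 2 * ∑ y ∈ range N, ‖∑ m ∈ Ioc y (y + H), tw (fun n => g n * ρ ((T ^ n) x)) θ m‖ ^ 2) := by
        field_simp
    _ ≤ C ^ 2 * (ε / C ^ 2 * H ^ 2 * N) := mul_le_mul_of_nonneg_left h2 (by positivity)
    _ = _ := by field_simp

theorem long_avgC (hh : S_HZX) (ha : S_ATM) (hg : S_GAL) (ht : S_TBD) {T : X →L[ℂ] X} {M : ℝ}
    (hM : ∀ n, ‖T ^ n‖ ≤ M) {G : Set (ℕ → ℂ)} {C : ℝ} (hC : 1 ≤ C) (hG : ∀ g ∈ G, ∀ n, ‖g n‖ ≤ C) (hS : Small G)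
    {x : X} (hx : x ∈ closure (Submodule.span ℂ {x | Tame T x} : Set X)) (ε : ℝ) (hε : 0 < ε) :
    ∃ N₀ : ℕ, ∀ N ≥ N₀, ∀ g ∈ G, ∀ θ : UnitAddCircle, ‖∑ n ∈ Icc 1 N, tw g θ n • (T ^ n) x‖ ≤ ε * N := by
  have hC0 : 0 < C := by linarith
  have hcn : ‖((C⁻¹ : ℝ) : ℂ)‖ = C⁻¹ := by rw [Complex.norm_real, Real.norm_of_nonneg (by positivity)]
  obtain ⟨N₀, h1⟩ := long_avg hh ha hg ht hM (G := {s | ∃ g ∈ G, s = fun n => ((C⁻¹ : ℝ) : ℂ) * g n}) (by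
    rintro _ ⟨g, hgG, rfl⟩ n
    show ‖((C⁻¹ : ℝ) : ℂ) * g n‖ ≤ 1
    rw [norm_mul, hcn, inv_mul_le_iff₀ hC0, mul_one]
    exact hG g hgG n) (small_scale hS (by rw [hcn]; exact inv_le_one_of_one_le₀ hC)) hx (ε / C) (by positivity)
  refine ⟨N₀, fun N hN g hgG θ => ?_⟩
  have h2 := h1 N hN _ ⟨g, hgG, rfl⟩ θ
  simp_rw [tw_scale, mul_smul, ← smul_sum] at h2
  rw [norm_smul, hcn] at h2
  calc ‖∑ n ∈ Icc 1 N, tw g θ n • (T ^ n) x‖ = C * (C⁻¹ * ‖∑ n ∈ Icc 1 N, tw g θ n • (T ^ n) x‖) := by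
        field_simp
    _ ≤ C * (ε / C * N) := mul_le_mul_of_nonneg_left h2 hC0.le
    _ = _ := by field_simp

end scale

section fields

variable {X : Type u} [NormedAddCommGroup X] [NormedSpace ℂ X] {Y : Type v}

/-- the averages of the functions with values in `X` -/
def PF (h : ℕ → ℂ) (S : Y → Y) (T : X →L[ℂ] X) (F : Y → X) : Prop :=
  ∀ ε : ℝ, 0 < ε → ∃ N₀ : ℕ, ∀ N ≥ N₀, ∀ θ : UnitAddCircle, ∀ y : Y,
    ‖∑ n ∈ Icc 1 N, tw h θ n • (T ^ n) (F (S^[n] y))‖ ≤ ε * N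

lemma PF.zero (h : ℕ → ℂ) (S : Y → Y) (T : X →L[ℂ] X) : PF h S T (fun _ => 0) := by
  intro ε hε
  refine ⟨0, fun N _ θ y => ?_⟩
  simp only [map_zero, smul_zero, sum_const_zero, norm_zero]
  positivity

lemma PF.add {h : ℕ → ℂ} {S : Y → Y} {T : X →L[ℂ] X} {F F' : Y → X} (hF : PF h S T F) (hF' : PF h S T F') :
    PF h S T (fun y => F y + F' y) := by
  intro ε hε
  obtain ⟨N₁, h1⟩ := hF (ε / 2) (by positivity)
  obtain ⟨N₂, h2⟩ := hF' (ε / 2) (by positivity)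
  refine ⟨max N₁ N₂, fun N hN θ y => ?_⟩
  simp_rw [map_add, smul_add, sum_add_distrib]
  have e1 := h1 N (le_trans (le_max_left _ _) hN) θ y
  have e2 := h2 N (le_trans (le_max_right _ _) hN) θ y
  refine (norm_add_le _ _).trans ?_
  linarith

lemma PF.smul {h : ℕ → ℂ} {S : Y → Y} {T : X →L[ℂ] X} {F : Y → X} (hF : PF h S T F) (c : ℂ) :
    PF h S T (fun y => c • F y) := by
  intro ε hε
  obtain ⟨N₁, h1⟩ := hF (ε / (‖c‖ + 1)) (by positivity)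
  refine ⟨N₁, fun N hN θ y => ?_⟩
  simp_rw [map_smul, smul_comm _ c, ← smul_sum]
  rw [norm_smul]
  calc ‖c‖ * ‖∑ n ∈ Icc 1 N, tw h θ n • (T ^ n) (F (S^[n] y))‖ ≤ (‖c‖ + 1) * (ε / (‖c‖ + 1) * N) :=
        mul_le_mul (by linarith) (h1 N hN θ y) (norm_nonneg _) (by positivity)
    _ = _ := by field_simp

lemma PF.lim {h : ℕ → ℂ} (hh : ∀ n, ‖h n‖ ≤ 1) {S : Y → Y} {T : X →L[ℂ] X} {M : ℝ} (hM : ∀ n, ‖T ^ n‖ ≤ M)
    {F : Y → X} (hF : ∀ η : ℝ, 0 < η → ∃ F' : Y → X, PF h S T F' ∧ ∀ y, ‖F y - F' y‖ ≤ η) : PF h S T F := by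
  intro ε hε
  have hM0 : 0 ≤ M := (norm_nonneg _).trans (hM 0)
  obtain ⟨F', hF', hd⟩ := hF (ε / (2 * (M + 1))) (by positivity)
  obtain ⟨N₁, h1⟩ := hF' (ε / 2) (by positivity)
  refine ⟨N₁, fun N hN θ y => ?_⟩
  have e1 := h1 N hN θ y
  have e : ∑ n ∈ Icc 1 N, tw h θ n • (T ^ n) (F (S^[n] y)) = ∑ n ∈ Icc 1 N, tw h θ n • (T ^ n) (F' (S^[n] y)) +
      ∑ n ∈ Icc 1 N, tw h θ n • (T ^ n) (F (S^[n] y) - F' (S^[n] y)) := by
    rw [← sum_add_distrib]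
    refine sum_congr rfl fun n _ => ?_
    rw [← smul_add, ← map_add, add_sub_cancel]
  have e2 : ‖∑ n ∈ Icc 1 N, tw h θ n • (T ^ n) (F (S^[n] y) - F' (S^[n] y))‖ ≤ ε / 2 * N := by
    refine (norm_sum_le _ _).trans ?_
    calc ∑ n ∈ Icc 1 N, ‖tw h θ n • (T ^ n) (F (S^[n] y) - F' (S^[n] y))‖ ≤ ∑ _n ∈ Icc 1 N, ε / 2 := by
          refine sum_le_sum fun n _ => ?_
          rw [norm_smul]
          calc ‖tw h θ n‖ * ‖(T ^ n) (F (S^[n] y) - F' (S^[n] y))‖ ≤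
              1 * (M * (ε / (2 * (M + 1)))) := by
                refine mul_le_mul (norm_tw' hh θ n) ?_ (norm_nonneg _) zero_le_one
                exact ((T ^ n).le_opNorm _).trans (mul_le_mul (hM n) (hd _) (norm_nonneg _) hM0)
            _ ≤ ε / 2 := by
                rw [one_mul]
                calc M * (ε / (2 * (M + 1))) ≤ (M + 1) * (ε / (2 * (M + 1))) := by gcongr; linarith
                  _ = ε / 2 := by field_simp
      _ = ε / 2 * N := by rw [sum_const, Nat.card_Icc, nsmul_eq_mul, Nat.add_sub_cancel]; ring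
  rw [e]
  refine (norm_add_le _ _).trans ?_
  linarith

lemma PF.sum {h : ℕ → ℂ} {S : Y → Y} {T : X →L[ℂ] X} {κ : Type v} (t : Finset κ) (F : κ → Y → X)
    (hF : ∀ i ∈ t, PF h S T (F i)) : PF h S T (fun y => ∑ i ∈ t, F i y) := by
  classical
  induction t using Finset.induction_on with
  | empty =>
    simp only [sum_empty]
    exact PF.zero h S T
  | insert i t hi ih =>
    simp_rw [sum_insert hi]
    exact (hF i (mem_insert_self i t)).add (ih fun j hj => hF j (mem_insert_of_mem hj))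

variable [TopologicalSpace Y] [CompactSpace Y] [T2Space Y]

lemma approx_sum (F : C(Y, X)) {ε : ℝ} (hε : 0 < ε) :
    ∃ (t : Finset Y) (φ : Y → C(Y, ℂ)), ∀ y, ‖F y - ∑ i ∈ t, φ i y • F i‖ ≤ ε := by
  classical
  have hU : ∀ z : Y, IsOpen {y | ‖F y - F z‖ < ε} := fun z => isOpen_lt (by fun_prop) continuous_const
  obtain ⟨t, ht⟩ := isCompact_univ.elim_finite_subcover (fun z : Y => {y | ‖F y - F z‖ < ε}) hU
    (fun z _ => Set.mem_iUnion.2 ⟨z, by simpa using hε⟩)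
  obtain ⟨f, hf⟩ := PartitionOfUnity.exists_isSubordinate (isClosed_univ (X := Y))
    (fun z : t => {y | ‖F y - F z‖ < ε}) (fun z => hU z) (by
      intro y hy
      obtain ⟨z, hz, hz2⟩ := Set.mem_iUnion₂.1 (ht hy)
      exact Set.mem_iUnion.2 ⟨⟨z, hz⟩, hz2⟩)
  have h1 : ∀ y, ∑ i : t, f i y = 1 := by
    intro y
    rw [← finsum_eq_sum_of_fintype]
    exact f.sum_eq_one (Set.mem_univ y)
  refine ⟨t, fun z => if hz : z ∈ t then ⟨fun y => ((f ⟨z, hz⟩ y : ℝ) : ℂ), by fun_prop⟩ else 0, fun y => ?_⟩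
  have e1 : ∑ i ∈ t, (if hz : i ∈ t then (⟨fun y => ((f ⟨i, hz⟩ y : ℝ) : ℂ), by fun_prop⟩ : C(Y, ℂ)) else 0) y • F i =
      ∑ i : t, ((f i y : ℝ) : ℂ) • F i := by
    rw [← sum_coe_sort]
    refine sum_congr rfl fun i _ => ?_
    rw [dif_pos i.2]
    rfl
  have e2 : F y = ∑ i : t, ((f i y : ℝ) : ℂ) • F y := by
    rw [← sum_smul]
    have : ∑ i : t, ((f i y : ℝ) : ℂ) = 1 := by exact_mod_cast h1 y
    rw [this, one_smul]
  rw [e1]
  conv_lhs => rw [e2]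
  rw [← sum_sub_distrib]
  refine (norm_sum_le _ _).trans ?_
  calc ∑ i : t, ‖((f i y : ℝ) : ℂ) • F y - ((f i y : ℝ) : ℂ) • F i‖ ≤ ∑ i : t, f i y * ε := by
        refine sum_le_sum fun i _ => ?_
        rw [← smul_sub, norm_smul, Complex.norm_real, Real.norm_of_nonneg (f.nonneg i y)]
        by_cases h0 : f i y = 0
        · rw [h0, zero_mul, zero_mul]
        · have h2 : y ∈ {y | ‖F y - F i‖ < ε} := hf i (subset_tsupport _ h0)
          exact mul_le_mul_of_nonneg_left (le_of_lt h2) (f.nonneg i y)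
    _ = ε := by rw [← sum_mul, h1, one_mul]

theorem fields (hh : S_HZX) (ha : S_ATM) (hg : S_GAL) (ht : S_TBD) {T : X →L[ℂ] X} {M : ℝ}
    (hM : ∀ n, ‖T ^ n‖ ≤ M) (hT : ∀ x : X, x ∈ closure (Submodule.span ℂ {x | Tame T x} : Set X))
    {h : ℕ → ℂ} (h1 : ∀ n, ‖h n‖ ≤ 1) {S : Y → Y} {D : Set C(Y, ℂ)} (hD : Dense (Submodule.span ℂ D : Set C(Y, ℂ)))
    (hDS : ∀ f ∈ D, Small {s | ∃ y, s = fun n => h n * f (S^[n] y)}) (F : C(Y, X)) : PF h S T F := by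
  have k1 : ∀ f ∈ D, ∀ x : X, PF h S T (fun y => f y • x) := by
    intro f hf x ε hε
    obtain ⟨N₀, h2⟩ := long_avgC hh ha hg ht hM (G := {s | ∃ y, s = fun n => h n * f (S^[n] y)})
      (C := ‖f‖ + 1) (by linarith [norm_nonneg f]) (by
        rintro _ ⟨y, rfl⟩ n
        show ‖h n * f (S^[n] y)‖ ≤ _
        rw [norm_mul]
        have := f.norm_coe_le_norm (S^[n] y)
        calc ‖h n‖ * ‖f (S^[n] y)‖ ≤ 1 * ‖f‖ := mul_le_mul (h1 n) this (norm_nonneg _) zero_le_one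
          _ ≤ _ := by linarith) (hDS f hf) (hT x) ε hε
    refine ⟨N₀, fun N hN θ y => ?_⟩
    refine le_trans (le_of_eq ?_) (h2 N hN _ ⟨y, rfl⟩ θ)
    congr 1
    refine sum_congr rfl fun n _ => ?_
    rw [map_smul, smul_smul]
    congr 1
    unfold tw
    ring
  have k2 : ∀ f ∈ Submodule.span ℂ D, ∀ x : X, PF h S T (fun y => f y • x) := by
    intro f hf x
    induction hf using Submodule.span_induction with
    | mem f hf => exact k1 f hf x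
    | zero =>
      simp only [ContinuousMap.zero_apply, zero_smul]
      exact PF.zero h S T
    | add f g _ _ ihf ihg =>
      simp only [ContinuousMap.add_apply, add_smul]
      exact ihf.add ihg
    | smul c f _ ih =>
      simp only [ContinuousMap.smul_apply, smul_assoc]
      exact ih.smul c
  have k3 : ∀ (f : C(Y, ℂ)) (x : X), PF h S T (fun y => f y • x) := by
    intro f x
    refine PF.lim h1 hM fun η hη => ?_
    obtain ⟨g, hg', hd⟩ := Metric.mem_closure_iff.1 (hD f) (η / (‖x‖ + 1)) (by positivity)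
    refine ⟨fun y => g y • x, k2 g hg' x, fun y => ?_⟩
    rw [← sub_smul, norm_smul]
    have h3 := (f - g).norm_coe_le_norm y
    rw [dist_eq_norm] at hd
    rw [ContinuousMap.sub_apply] at h3
    calc ‖f y - g y‖ * ‖x‖ ≤ (η / (‖x‖ + 1)) * (‖x‖ + 1) :=
          mul_le_mul (h3.trans hd.le) (by linarith) (norm_nonneg _) (by positivity)
      _ = η := by field_simp
  refine PF.lim h1 hM fun η hη => ?_
  obtain ⟨t, φ, hφ⟩ := approx_sum F hη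
  exact ⟨_, PF.sum t (fun i y => φ i y • F i) (fun i _ => k3 _ _), hφ⟩

end fields

end Pool.Agent.L0h38.TM
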