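import Pool.Agent.L0h38.TM.Stm

/-! # A family with small windows is isolated from atomic measures -/

set_option autoImplicit false

open Filter Topology Finset MeasureTheory
open Pool.Agent.R296.SM

namespace Pool.Agent.L0h38.TM

lemma fourier_re {z : UnitAddCircle} {k : ℤ} {H : ℕ} (hH : 1 ≤ H) (hz : ‖z‖ < 1 / (8 * H)) (hk : |k| ≤ (H : ℤ)) :
    1 / 2 ≤ (fourier k z : ℂ).re := by
  obtain ⟨x, rfl⟩ := QuotientAddGroup.mk_surjective z
  change ‖((x : ℝ) : UnitAddCircle)‖ < _ at hz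
  rw [UnitAddCircle.norm_eq] at hz
  set t : ℝ := x - round x with ht
  have e : ((x : ℝ) : UnitAddCircle) = ((t : ℝ) : UnitAddCircle) := by
    rw [← sub_eq_zero, ← AddCircle.coe_sub, AddCircle.coe_eq_zero_iff]
    exact ⟨round x, by rw [ht]; simp⟩
  have hH0 : (0 : ℝ) < H := by exact_mod_cast hH
  rw [e, fourier_coe_apply]
  have e2 : 2 * (Real.pi : ℂ) * Complex.I * k * t / (1 : ℝ) = ((2 * Real.pi * k * t : ℝ) : ℂ) * Complex.I := by
    push_cast
    ring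
  rw [e2, Complex.exp_ofReal_mul_I_re, ← Real.cos_pi_div_three, ← Real.cos_abs (2 * Real.pi * k * t)]
  apply Real.cos_le_cos_of_nonneg_of_le_pi (abs_nonneg _) (by linarith [Real.pi_pos])
  have hk' : |(k : ℝ)| ≤ H := by exact_mod_cast hk
  have h1 : |2 * Real.pi * k * t| = 2 * Real.pi * (|(k : ℝ)| * |t|) := by
    rw [abs_mul, abs_mul, abs_mul, abs_of_pos Real.pi_pos, abs_of_pos (show (0 : ℝ) < 2 by norm_num)]
    ring
  have h2 : |(k : ℝ)| * |t| ≤ H * (1 / (8 * H)) := mul_le_mul hk' hz.le (abs_nonneg _) hH0.le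
  have h3 : (H : ℝ) * (1 / (8 * H)) = 1 / 8 := by field_simp
  rw [h3] at h2
  rw [h1]
  nlinarith [Real.pi_pos]

lemma fourier_sub' (k : ℤ) (η a : UnitAddCircle) : (fourier k (η - a) : ℂ) = fourier (-k) a * fourier k η := by
  rw [fourier_apply, fourier_apply, fourier_apply, zsmul_sub, sub_eq_add_neg, AddCircle.toCircle_add,
    Circle.coe_mul, ← neg_zsmul, mul_comm]

/-- the shifts -/
noncomputable def Sh (H : ℕ) : Finset ℤ := Ioc (-(H : ℤ) - 1) (-1)

/-- the coefficients -/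
noncomputable def ca (a : UnitAddCircle) (k : ℤ) : ℂ := fourier (-k) a

lemma norm_ca (a : UnitAddCircle) (k : ℤ) : ‖ca a k‖ = 1 := by
  unfold ca
  rw [fourier_apply, Circle.norm_coe]

lemma card_Sh (H : ℕ) : (Sh H).card = H := by
  unfold Sh
  rw [Int.card_Ioc]
  omega

lemma ker_le (a η : UnitAddCircle) {H : ℕ} (hH : 1 ≤ H) (hη : ‖η - a‖ < 1 / (8 * H)) :
    (H : ℝ) / 2 ≤ ‖TP (Sh H) (ca a) η‖ := by
  have h1 : TP (Sh H) (ca a) η = ∑ k ∈ Sh H, (fourier k (η - a) : ℂ) := by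
    unfold TP ca
    exact sum_congr rfl fun k _ => (fourier_sub' k η a).symm
  rw [h1]
  refine le_trans ?_ (Complex.re_le_norm _)
  rw [Complex.re_sum]
  calc (H : ℝ) / 2 = ∑ _k ∈ Sh H, (1 / 2 : ℝ) := by rw [sum_const, card_Sh, nsmul_eq_mul]; ring
    _ ≤ _ := by
      refine sum_le_sum fun k hk => fourier_re hH hη ?_
      unfold Sh at hk
      rw [mem_Ioc] at hk
      rw [abs_le]
      omega

lemma gw_win (a : UnitAddCircle) (H : ℕ) (h : ℤ → ℂ) (x : ℤ) :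
    ‖gw (Sh H) (ca a) h x‖ = ‖∑ m ∈ Ioc x (x + H), h m * fourier m a‖ := by
  have h1 : gw (Sh H) (ca a) h x = fourier (-x) a * ∑ m ∈ Ioc x (x + H), h m * fourier m a := by
    unfold gw
    rw [mul_sum]
    refine sum_nbij' (fun k => x - k) (fun m => x - m) ?_ ?_ ?_ ?_ ?_
    · intro k hk
      unfold Sh at hk
      rw [mem_Ioc] at hk ⊢
      omega
    · intro m hm
      unfold Sh
      rw [mem_Ioc] at hm ⊢
      omega
    · intro k _; ring
    · intro m _; ring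
    · intro k _
      unfold ca
      have e : (fourier (-k) a : ℂ) = fourier (-x) a * fourier (x - k) a := by
        rw [← fourier_add]
        congr 2
        ring
      rw [e]
      ring
  rw [h1, norm_mul, fourier_apply, Circle.norm_coe, one_mul]

lemma win_eq (g : ℕ → ℂ) (θ a : UnitAddCircle) (H X : ℕ) (x : ℤ) (h0 : 0 ≤ x) (h1 : x + H ≤ X) :
    ∑ m ∈ Ioc x (x + H), tr (ext0 (tw g θ)) X m * fourier m a =
      ∑ m ∈ Ioc x.toNat (x.toNat + H), tw g (θ + a) m := by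
  refine sum_nbij' (fun m => m.toNat) (fun n => (n : ℤ)) ?_ ?_ ?_ ?_ ?_
  · intro m hm
    rw [mem_Ioc] at hm ⊢
    omega
  · intro m hm
    rw [mem_Ioc] at hm ⊢
    omega
  · intro m hm
    rw [mem_Ioc] at hm
    omega
  · intro m _; simp
  · intro m hm
    rw [mem_Ioc] at hm
    rw [tr, if_pos (by omega), ext0, if_pos (by omega)]
    unfold tw
    have e : ((m.toNat : ℕ) : ℤ) = m := by omega
    rw [e]
    have e2 : (fourier m (θ + a) : ℂ) = fourier m θ * fourier m a := by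
      rw [fourier_apply, fourier_apply, fourier_apply, zsmul_add, AddCircle.toCircle_add, Circle.coe_mul]
    rw [e2]
    ring

lemma tr_le {h : ℤ → ℂ} (hh : ∀ m, ‖h m‖ ≤ 1) (X : ℕ) (m : ℤ) : ‖tr h X m‖ ≤ 1 := by
  unfold tr
  split_ifs
  · exact hh m
  · simp

lemma norm_tw {g : ℕ → ℂ} (hg : ∀ n, ‖g n‖ ≤ 1) (θ : UnitAddCircle) (n : ℕ) : ‖tw g θ n‖ ≤ 1 := by
  unfold tw
  rw [norm_mul, fourier_apply, Circle.norm_coe, mul_one]
  exact hg n

lemma sum_le (g : ℕ → ℂ) (hg : ∀ n, ‖g n‖ ≤ 1) (θ a : UnitAddCircle) {H : ℕ} (hH : 1 ≤ H) (X : ℕ) :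
    ∑ m ∈ Ioc (-(H : ℤ)) (X + H), ‖gw (Sh H) (ca a) (tr (ext0 (tw g θ)) X) m‖ ^ 2 ≤
      (∑ x ∈ range X, ‖∑ m ∈ Ioc x (x + H), tw g (θ + a) m‖ ^ 2) + 3 * (H : ℝ) ^ 3 := by
  classical
  set W : ℕ → ℝ := fun x => ‖∑ m ∈ Ioc x (x + H), tw g (θ + a) m‖ ^ 2 with hW
  have hb : ∀ m, ‖gw (Sh H) (ca a) (tr (ext0 (tw g θ)) X) m‖ ≤ H := by
    intro m
    refine (gw_le (Sh H) (ca a) _ (tr_le (ext0_le (norm_tw hg θ)) X) m).trans ?_
    simp_rw [norm_ca]
    rw [sum_const, card_Sh, nsmul_eq_mul, mul_one]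
  rw [← sum_filter_add_sum_filter_not (Ioc (-(H : ℤ)) (X + H)) (fun m : ℤ => 0 ≤ m ∧ m + (H : ℤ) ≤ (X : ℤ))]
  refine add_le_add ?_ ?_
  · have h1 : ∑ m ∈ (Ioc (-(H : ℤ)) (X + H)).filter (fun m : ℤ => 0 ≤ m ∧ m + (H : ℤ) ≤ (X : ℤ)),
        ‖gw (Sh H) (ca a) (tr (ext0 (tw g θ)) X) m‖ ^ 2 =
        ∑ m ∈ (Ioc (-(H : ℤ)) (X + H)).filter (fun m : ℤ => 0 ≤ m ∧ m + (H : ℤ) ≤ (X : ℤ)), W m.toNat := by
      refine sum_congr rfl fun m hm => ?_
      rw [mem_filter] at hm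
      rw [gw_win, win_eq g θ a H X m hm.2.1 hm.2.2]
    rw [h1]
    have h2 : Set.InjOn (fun m : ℤ => m.toNat)
        (((Ioc (-(H : ℤ)) (X + H)).filter (fun m : ℤ => 0 ≤ m ∧ m + (H : ℤ) ≤ (X : ℤ)) : Finset ℤ) : Set ℤ) := by
      intro m hm m' hm' h
      have hm2 := (mem_filter.1 (mem_coe.1 hm)).2
      have hm3 := (mem_filter.1 (mem_coe.1 hm')).2
      have h' : m.toNat = m'.toNat := h
      omega
    rw [← sum_image (f := W) (g := fun m : ℤ => m.toNat) (s := (Ioc (-(H : ℤ)) (X + H)).filter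
      (fun m : ℤ => 0 ≤ m ∧ m + (H : ℤ) ≤ (X : ℤ))) (fun m hm m' hm' h => h2 hm hm' h)]
    refine sum_le_sum_of_subset_of_nonneg ?_ fun _ _ _ => sq_nonneg _
    intro x hx
    rw [mem_image] at hx
    obtain ⟨m, hm, rfl⟩ := hx
    rw [mem_filter] at hm
    rw [mem_range]
    omega
  · have h1 : ((Ioc (-(H : ℤ)) (X + H)).filter (fun m : ℤ => ¬(0 ≤ m ∧ m + (H : ℤ) ≤ (X : ℤ)))).card ≤ 3 * H := by
      have h2 : (Ioc (-(H : ℤ)) (X + H)).filter (fun m : ℤ => ¬(0 ≤ m ∧ m + (H : ℤ) ≤ (X : ℤ))) ⊆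
          Ioc (-(H : ℤ)) 0 ∪ Ioc ((X : ℤ) - H) (X + H) := by
        intro m hm
        rw [mem_filter, mem_Ioc] at hm
        rw [mem_union, mem_Ioc, mem_Ioc]
        omega
      refine (card_le_card h2).trans ((card_union_le _ _).trans ?_)
      rw [Int.card_Ioc, Int.card_Ioc]
      omega
    calc ∑ m ∈ (Ioc (-(H : ℤ)) (X + H)).filter (fun m : ℤ => ¬(0 ≤ m ∧ m + (H : ℤ) ≤ (X : ℤ))),
          ‖gw (Sh H) (ca a) (tr (ext0 (tw g θ)) X) m‖ ^ 2 ≤
          ∑ _m ∈ (Ioc (-(H : ℤ)) (X + H)).filter (fun m : ℤ => ¬(0 ≤ m ∧ m + (H : ℤ) ≤ (X : ℤ))), (H : ℝ) ^ 2 :=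
          sum_le_sum fun m _ => pow_le_pow_left₀ (norm_nonneg _) (hb m) 2
      _ = ((Ioc (-(H : ℤ)) (X + H)).filter (fun m : ℤ => ¬(0 ≤ m ∧ m + (H : ℤ) ≤ (X : ℤ)))).card * (H : ℝ) ^ 2 := by
          rw [sum_const, nsmul_eq_mul]
      _ ≤ (3 * H : ℕ) * (H : ℝ) ^ 2 := by
          apply mul_le_mul_of_nonneg_right _ (by positivity)
          exact_mod_cast h1
      _ = 3 * (H : ℝ) ^ 3 := by push_cast; ring

lemma arc_le (g : ℕ → ℂ) (hg : ∀ n, ‖g n‖ ≤ 1) (θ a : UnitAddCircle) {H : ℕ} (hH : 1 ≤ H) (X : ℕ) :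
    ∫ η : UnitAddCircle, {η : UnitAddCircle | ‖η - a‖ < 1 / (8 * (H : ℝ))}.indicator
        (fun η => ‖SZ (ext0 (tw g θ)) X η‖ ^ 2) η ≤
      4 / (H : ℝ) ^ 2 * ((∑ x ∈ range X, ‖∑ m ∈ Ioc x (x + H), tw g (θ + a) m‖ ^ 2) + 3 * (H : ℝ) ^ 3) := by
  have hH0 : (0 : ℝ) < H := by exact_mod_cast hH
  have hc1 : Continuous fun η => ‖SZ (ext0 (tw g θ)) X η‖ ^ 2 := by
    rw [SZ_eq_TP]
    exact (TP_cont _ _).norm.pow 2
  have hc2 : Continuous fun η => ‖TP (Sh H) (ca a) η‖ ^ 2 := (TP_cont _ _).norm.pow 2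
  have hop : IsOpen {η : UnitAddCircle | ‖η - a‖ < 1 / (8 * (H : ℝ))} :=
    isOpen_lt (by fun_prop) continuous_const
  have h1 : ∫ η : UnitAddCircle, ‖TP (Sh H) (ca a) η‖ ^ 2 * ‖SZ (ext0 (tw g θ)) X η‖ ^ 2 =
      ∑ m ∈ Ioc (-(H : ℤ)) (X + H), ‖gw (Sh H) (ca a) (tr (ext0 (tw g θ)) X) m‖ ^ 2 := by
    rw [← pars]
    refine integral_congr_ae (ae_of_all _ fun η => ?_)
    show ‖TP (Sh H) (ca a) η‖ ^ 2 * ‖SZ (ext0 (tw g θ)) X η‖ ^ 2 = _
    rw [← mul_pow, ← norm_mul, TP_mul_SZ (Sh H) (ca a) H]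
    intro k hk
    unfold Sh at hk
    rw [mem_Ioc] at hk
    rw [abs_le]
    omega
  calc ∫ η : UnitAddCircle, {η : UnitAddCircle | ‖η - a‖ < 1 / (8 * (H : ℝ))}.indicator
        (fun η => ‖SZ (ext0 (tw g θ)) X η‖ ^ 2) η ≤
      ∫ η : UnitAddCircle, 4 / (H : ℝ) ^ 2 * (‖TP (Sh H) (ca a) η‖ ^ 2 * ‖SZ (ext0 (tw g θ)) X η‖ ^ 2) := by
        apply integral_mono
        · exact (int_of_cont hc1 _).indicator hop.measurableSet
        · exact (int_of_cont (hc2.mul hc1) _).const_mul _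
        intro η
        simp only
        by_cases h : η ∈ {η : UnitAddCircle | ‖η - a‖ < 1 / (8 * (H : ℝ))}
        · rw [Set.indicator_of_mem h]
          have h2 := ker_le a η hH h
          have h3 : (H : ℝ) ^ 2 / 4 ≤ ‖TP (Sh H) (ca a) η‖ ^ 2 := by
            have := pow_le_pow_left₀ (by positivity) h2 2
            calc (H : ℝ) ^ 2 / 4 = ((H : ℝ) / 2) ^ 2 := by ring
              _ ≤ _ := this
          have h4 : 1 ≤ 4 / (H : ℝ) ^ 2 * ‖TP (Sh H) (ca a) η‖ ^ 2 := by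
            calc (1 : ℝ) = 4 / (H : ℝ) ^ 2 * ((H : ℝ) ^ 2 / 4) := by field_simp
              _ ≤ _ := mul_le_mul_of_nonneg_left h3 (by positivity)
          calc ‖SZ (ext0 (tw g θ)) X η‖ ^ 2 = 1 * ‖SZ (ext0 (tw g θ)) X η‖ ^ 2 := (one_mul _).symm
            _ ≤ (4 / (H : ℝ) ^ 2 * ‖TP (Sh H) (ca a) η‖ ^ 2) * ‖SZ (ext0 (tw g θ)) X η‖ ^ 2 :=
              mul_le_mul_of_nonneg_right h4 (sq_nonneg _)
            _ = _ := by ring
        · rw [Set.indicator_of_notMem h]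
          positivity
    _ = 4 / (H : ℝ) ^ 2 * ∑ m ∈ Ioc (-(H : ℤ)) (X + H), ‖gw (Sh H) (ca a) (tr (ext0 (tw g θ)) X) m‖ ^ 2 := by
        rw [integral_const_mul, h1]
    _ ≤ _ := mul_le_mul_of_nonneg_left (sum_le g hg θ a hH X) (by positivity)

lemma Kn_finite {K : ℕ → Set UnitAddCircle} (hK : ∀ i, (K i).Finite) (n : ℕ) : (Kn K n).Finite := by
  induction n with
  | zero =>
    show (closure (K 0)).Finite
    rw [(hK 0).isClosed.closure_eq]
    exact hK 0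
  | succ n ih =>
    show (Kn K n ∪ closure (K (n + 1))).Finite
    rw [(hK (n + 1)).isClosed.closure_eq]
    exact ih.union (hK _)

theorem gal : S_GAL := by
  intro G hG hS σ hσ S hSc hσS δ hδ
  classical
  obtain ⟨s, hs⟩ : ∃ s : ℕ → UnitAddCircle, S ⊆ Set.range s := by
    obtain ⟨s, hs⟩ := (hSc.insert 0).exists_eq_range ⟨0, Set.mem_insert _ _⟩
    exact ⟨s, hs ▸ Set.subset_insert _ _⟩
  have hσ' : σ (⋃ i, ({s i} : Set UnitAddCircle))ᶜ = 0 := by
    refine measure_mono_null (Set.compl_subset_compl.2 ?_) hσS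
    intro x hx
    obtain ⟨i, hi⟩ := hs hx
    exact Set.mem_iUnion.2 ⟨i, hi.symm⟩
  obtain ⟨n, hn⟩ := exists_Kn hσ' δ hδ
  have hfin := Kn_finite (K := fun i => ({s i} : Set UnitAddCircle)) (fun i => Set.finite_singleton _) n
  set F : Set UnitAddCircle := Kn (fun i => ({s i} : Set UnitAddCircle)) n with hF
  set r : ℕ := hfin.toFinset.card with hr
  obtain ⟨H, hH, N₀, hN⟩ := hS (δ / (8 * (r + 1))) (by positivity)
  have hH0 : (0 : ℝ) < H := by exact_mod_cast hH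
  set ρ : ℝ := 1 / (8 * (H : ℝ)) with hρ
  have hρ0 : 0 < ρ := by rw [hρ]; positivity
  have hcl : IsClosed (Nc F ρ)ᶜ := (Nc_open _ _).isClosed_compl
  have hdis : Disjoint (Nc F ρ)ᶜ F := by
    rw [Set.disjoint_left]
    intro x hx hx2
    exact hx ⟨x, hx2, by simpa using hρ0⟩
  obtain ⟨f, hf0, hf1, hf⟩ := exists_continuous_zero_one_of_isClosed hcl hfin.isClosed hdis
  obtain ⟨N₁, hN1⟩ := exists_nat_ge (24 * (H : ℝ) * r / δ)
  refine ⟨f, fun η => hf η, ?_, max N₀ N₁, ?_⟩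
  · calc ∫ η, (1 - f η) ^ 2 ∂σ ≤ ∫ η, Fᶜ.indicator (fun _ => (1 : ℝ)) η ∂σ := by
          apply integral_mono
          · exact int_of_cont (by fun_prop) σ
          · exact (integrable_const 1).indicator hfin.isClosed.measurableSet.compl
          intro η
          simp only
          by_cases h : η ∈ F
          · rw [hf1 h, Set.indicator_of_notMem (by simpa using h)]
            simp
          · rw [Set.indicator_of_mem h]
            have := hf η
            rw [Set.mem_Icc] at this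
            nlinarith
      _ = σ.real Fᶜ := by
          rw [integral_indicator hfin.isClosed.measurableSet.compl, setIntegral_const, smul_eq_mul, mul_one]
      _ ≤ δ := hn
  · rintro N hNN - h ⟨g, hg, θ, rfl⟩
    have hc1 : Continuous fun η => ‖SZ (ext0 (tw g θ)) N η‖ ^ 2 := by
      rw [SZ_eq_TP]
      exact (TP_cont _ _).norm.pow 2
    have hmeas : ∀ a : UnitAddCircle, MeasurableSet {η : UnitAddCircle | ‖η - a‖ < ρ} := fun a =>
      (isOpen_lt (by fun_prop) continuous_const).measurableSet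
    calc ∫ η : UnitAddCircle, f η ^ 2 * ‖SZ (ext0 (tw g θ)) N η‖ ^ 2 ≤
        ∫ η : UnitAddCircle, ∑ a ∈ hfin.toFinset, {η : UnitAddCircle | ‖η - a‖ < ρ}.indicator
          (fun η => ‖SZ (ext0 (tw g θ)) N η‖ ^ 2) η := by
          apply integral_mono
          · exact int_of_cont (by fun_prop) _
          · exact integrable_finsetSum _ fun a _ => (int_of_cont hc1 _).indicator (hmeas a)
          intro η
          simp only
          by_cases h : η ∈ Nc F ρ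
          · obtain ⟨a, ha, ha2⟩ := h
            have h1 : {η : UnitAddCircle | ‖η - a‖ < ρ}.indicator
                (fun η => ‖SZ (ext0 (tw g θ)) N η‖ ^ 2) η = ‖SZ (ext0 (tw g θ)) N η‖ ^ 2 :=
              Set.indicator_of_mem (show η ∈ {η : UnitAddCircle | ‖η - a‖ < ρ} from ha2) _
            refine le_trans ?_ (single_le_sum (f := fun a => {η : UnitAddCircle | ‖η - a‖ < ρ}.indicator
                (fun η => ‖SZ (ext0 (tw g θ)) N η‖ ^ 2) η)
              (fun b _ => Set.indicator_nonneg (fun _ _ => sq_nonneg _) _) (hfin.mem_toFinset.2 ha))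
            rw [h1]
            have := hf η
            rw [Set.mem_Icc] at this
            have h3 : f η ^ 2 ≤ 1 := by nlinarith
            calc f η ^ 2 * ‖SZ (ext0 (tw g θ)) N η‖ ^ 2 ≤ 1 * ‖SZ (ext0 (tw g θ)) N η‖ ^ 2 :=
                  mul_le_mul_of_nonneg_right h3 (sq_nonneg _)
              _ = _ := one_mul _
          · rw [hf0 h]
            simp only [Pi.zero_apply, ne_eq, OfNat.ofNat_ne_zero, not_false_eq_true, zero_pow, zero_mul]
            exact sum_nonneg fun a _ => Set.indicator_nonneg (fun _ _ => sq_nonneg _) _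
      _ = ∑ a ∈ hfin.toFinset, ∫ η : UnitAddCircle, {η : UnitAddCircle | ‖η - a‖ < ρ}.indicator
          (fun η => ‖SZ (ext0 (tw g θ)) N η‖ ^ 2) η :=
          integral_finsetSum _ fun a _ => (int_of_cont hc1 _).indicator (hmeas a)
      _ ≤ ∑ _a ∈ hfin.toFinset, 4 / (H : ℝ) ^ 2 * (δ / (8 * (r + 1)) * H ^ 2 * N + 3 * (H : ℝ) ^ 3) := by
          refine sum_le_sum fun a _ => (arc_le g (hG g hg) θ a hH N).trans ?_
          apply mul_le_mul_of_nonneg_left _ (by positivity)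
          have := hN N (le_trans (le_max_left _ _) hNN) g hg (θ + a)
          linarith
      _ = (r / (r + 1) * (δ / 2)) * N + 12 * H * r := by
          rw [sum_const, nsmul_eq_mul, ← hr]
          field_simp
          ring
      _ ≤ δ * N := by
          have h1 : (r : ℝ) / (r + 1) ≤ 1 := by
            rw [div_le_one (by positivity)]
            linarith
          have h2 : 24 * (H : ℝ) * r / δ ≤ N := hN1.trans (by exact_mod_cast le_trans (le_max_right _ _) hNN)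
          rw [div_le_iff₀ hδ] at h2
          have h3 : (r : ℝ) / (r + 1) * (δ / 2) ≤ 1 * (δ / 2) := mul_le_mul_of_nonneg_right h1 (by positivity)
          have h4 : ((r : ℝ) / (r + 1) * (δ / 2)) * N ≤ (1 * (δ / 2)) * N :=
            mul_le_mul_of_nonneg_right h3 (Nat.cast_nonneg _)
          nlinarith

end Pool.Agent.L0h38.TM
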