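import Pool.Agent.L0h38.TM.Stm
import Pool.Agent.W763.Tr.Herg

/-! # Spectral measures exist -/

set_option autoImplicit false

open Filter Topology Finset MeasureTheory
open Pool.Agent.R296.SM
open scoped ComplexOrder

namespace Pool.Agent.L0h38.TM

theorem hzx : S_HZX := by
  intro X _ _ _ _ T hT ν hν hp f
  have hfc : ∀ n : ℕ, Continuous fun x => f (T^[n] x) := fun n => f.continuous.comp (hT.iterate n)
  have hint : ∀ j k : ℕ, Integrable (fun x => f (T^[j] x) * (starRingEnd ℂ) (f (T^[k] x))) ν := by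
    intro j k
    have hc : Continuous fun x => f (T^[j] x) * (starRingEnd ℂ) (f (T^[k] x)) :=
      (hfc j).mul (Complex.continuous_conj.comp (hfc k))
    exact (BoundedContinuousFunction.mkOfCompact ⟨_, hc⟩).integrable ν
  have hinv : ∀ j k d : ℕ, ∫ x, f (T^[j + d] x) * (starRingEnd ℂ) (f (T^[k + d] x)) ∂ν =
      ∫ x, f (T^[j] x) * (starRingEnd ℂ) (f (T^[k] x)) ∂ν := by
    intro j k d
    have hmap : Measure.map (T^[d]) ν = ν := (hp.iterate d).map_eq
    have hc : Continuous fun x => f (T^[j] x) * (starRingEnd ℂ) (f (T^[k] x)) :=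
      (hfc j).mul (Complex.continuous_conj.comp (hfc k))
    have h2 : ∫ x, f (T^[j] x) * (starRingEnd ℂ) (f (T^[k] x)) ∂(Measure.map (T^[d]) ν) =
        ∫ x, f (T^[j] (T^[d] x)) * (starRingEnd ℂ) (f (T^[k] (T^[d] x))) ∂ν :=
      integral_map (hT.iterate d).measurable.aemeasurable hc.aestronglyMeasurable
    rw [hmap] at h2
    rw [h2]
    refine integral_congr_ae (ae_of_all _ fun x => ?_)
    show f (T^[j + d] x) * (starRingEnd ℂ) (f (T^[k + d] x)) = _
    rw [Function.iterate_add_apply, Function.iterate_add_apply]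
  set E : ℝ := ∫ x, ‖f x‖ ^ 2 ∂ν with hE
  have hE0 : 0 ≤ E := integral_nonneg fun x => sq_nonneg _
  have hfi : Integrable (fun x => ‖f x‖ ^ 2) ν :=
    (BoundedContinuousFunction.mkOfCompact ⟨_, f.continuous.norm.pow 2⟩).integrable ν
  rcases hE0.eq_or_lt with h0 | hpos
  · refine ⟨0, inferInstance, fun h => ?_⟩
    rw [integral_zero_measure]
    have h1 : (fun x => ‖f x‖ ^ 2) =ᵐ[ν] 0 :=
      (integral_eq_zero_iff_of_nonneg (fun x => sq_nonneg _) hfi).1 h0.symm
    rw [integral_eq_zero_of_ae]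
    filter_upwards [h1] with x hx
    have h2 : f x = 0 := by
      have h3 : ‖f x‖ ^ 2 = 0 := hx
      exact norm_eq_zero.1 (pow_eq_zero_iff (two_ne_zero) |>.1 h3)
    rw [h2]
    simp
  · have hEc : (E : ℂ) ≠ 0 := by exact_mod_cast hpos.ne'
    let c : ℤ → ℂ := fun n => (E : ℂ)⁻¹ *
      ∫ x, f (T^[n.toNat] x) * (starRingEnd ℂ) (f (T^[(-n).toNat] x)) ∂ν
    have hc1 : ∀ j k : ℕ, c ((j : ℤ) - k) = (E : ℂ)⁻¹ * ∫ x, f (T^[j] x) * (starRingEnd ℂ) (f (T^[k] x)) ∂ν := by
      intro j k
      show (E : ℂ)⁻¹ * _ = _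
      congr 1
      have e1 : ((j : ℤ) - k).toNat + min j k = j := by omega
      have e2 : (-((j : ℤ) - k)).toNat + min j k = k := by omega
      have := hinv (((j : ℤ) - k).toNat) ((-((j : ℤ) - k)).toNat) (min j k)
      rw [e1, e2] at this
      exact this.symm
    have h0 : c 0 = 1 := by
      have h1 := hc1 0 0
      simp only [Nat.cast_zero, sub_zero, Function.iterate_zero, id_eq] at h1
      rw [h1]
      have h2 : ∫ x, f x * (starRingEnd ℂ) (f x) ∂ν = (E : ℂ) := by
        rw [hE, ← integral_complex_ofReal]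
        refine integral_congr_ae (ae_of_all _ fun x => ?_)
        show f x * (starRingEnd ℂ) (f x) = _
        rw [Complex.mul_conj']
        push_cast
        rfl
      rw [h2, inv_mul_cancel₀ hEc]
    have hpd : ∀ N : ℕ, ∀ a : ℕ → ℂ, 0 ≤ ∑ j ∈ range N, ∑ k ∈ range N, star (a k) * a j * c (j - k) := by
      intro N a
      have h1 : ∑ j ∈ range N, ∑ k ∈ range N, star (a k) * a j * c (j - k) =
          (E : ℂ)⁻¹ * ∫ x, ((‖∑ j ∈ range N, a j * f (T^[j] x)‖ ^ 2 : ℝ) : ℂ) ∂ν := by
        have h2 : ∀ x, ((‖∑ j ∈ range N, a j * f (T^[j] x)‖ ^ 2 : ℝ) : ℂ) =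
            ∑ j ∈ range N, ∑ k ∈ range N, star (a k) * a j *
              (f (T^[j] x) * (starRingEnd ℂ) (f (T^[k] x))) := by
          intro x
          have h3 := Complex.mul_conj' (∑ j ∈ range N, a j * f (T^[j] x))
          push_cast
          rw [← h3, map_sum, sum_mul_sum]
          refine sum_congr rfl fun j _ => sum_congr rfl fun k _ => ?_
          rw [map_mul]
          show _ = (starRingEnd ℂ) (a k) * a j * _
          ring
        simp_rw [h2]
        rw [integral_finsetSum _ fun j _ => integrable_finsetSum _ fun k _ => (hint j k).const_mul _,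
          mul_sum]
        refine sum_congr rfl fun j _ => ?_
        rw [integral_finsetSum _ fun k _ => (hint j k).const_mul _, mul_sum]
        refine sum_congr rfl fun k _ => ?_
        rw [integral_const_mul, hc1]
        ring
      rw [h1, integral_complex_ofReal]
      have h2 : 0 ≤ ∫ x, ‖∑ j ∈ range N, a j * f (T^[j] x)‖ ^ 2 ∂ν := integral_nonneg fun x => sq_nonneg _
      rw [← Complex.ofReal_inv, ← Complex.ofReal_mul]
      exact_mod_cast mul_nonneg (inv_nonneg.2 hpos.le) h2
    obtain ⟨μ, hμ, hm⟩ := Pool.Agent.W763.Tr.herglotz h0 hpd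
    refine ⟨ENNReal.ofReal E • μ, ⟨by
      rw [Measure.smul_apply, smul_eq_mul]
      exact ENNReal.mul_lt_top ENNReal.ofReal_lt_top (measure_lt_top _ _)⟩, fun h => ?_⟩
    rw [integral_smul_measure, ENNReal.toReal_ofReal hpos.le]
    have h1 := hm h
    have h2 := hc1 h 0
    simp only [Nat.cast_zero, sub_zero, Function.iterate_zero, id_eq] at h2
    rw [h1, h2, Complex.real_smul, ← mul_assoc, mul_inv_cancel₀ hEc, one_mul]

end Pool.Agent.L0h38.TM
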