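import Pool.Agent.L0h38.TM.Stm

/-! # The Moebius and the Liouville function have small twisted windows -/

set_option autoImplicit false

open Filter Topology Finset MeasureTheory
open Pool.Agent.R296.SM Pool.Agent.TH327.Dim

namespace Pool.Agent.L0h38.TM

lemma half_zero : HalfDim ({0} : Set UnitAddCircle) := by
  refine ⟨1, 0, by norm_num, fun n hn => ⟨{0}, ?_, fun x hx => ⟨0, mem_singleton_self _, ?_⟩⟩⟩
  · simp
  · rw [Set.mem_singleton_iff] at hx
    subst hx
    rw [sub_zero, norm_zero]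
    positivity

lemma specU_one {a : ℕ → ℕ} {𝒱 : Ultrafilter ℕ} (h𝒱 : Tendsto a 𝒱 atTop) :
    SpecU (fun _ (_ : ℤ) => (1 : ℂ)) a 𝒱 (Measure.dirac (0 : UnitAddCircle)) := by
  intro h
  rw [integral_dirac]
  have e : (fourier (h : ℤ) (0 : UnitAddCircle) : ℂ) = 1 := by
    rw [fourier_apply, smul_zero, AddCircle.toCircle_zero, Circle.coe_one]
  rw [e]
  refine tendsto_const_nhds.congr' ?_
  filter_upwards [h𝒱.eventually_ge_atTop 1] with j hj
  have h1 : (a j : ℂ) ≠ 0 := by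
    have : a j ≠ 0 := by omega
    exact_mod_cast this
  have h2 : ∑ m ∈ Ioc (0 : ℤ) (a j), (inner ℂ (1 : ℂ) (1 : ℂ) : ℂ) = a j := by
    rw [sum_const, Int.card_Ioc]
    simp
  rw [h2]
  field_simp

theorem small_of {g : ℕ → ℂ} (hg : ∀ n, ‖g n‖ ≤ 1)
    (hG : ∀ C s : ℝ, 0 ≤ C → 0 ≤ s → s < 1 / 2 → Good {K | Cov K C s} {g}) : Small {g} := by
  intro ε hε
  obtain ⟨H, hH1, h1⟩ := criterionU (ι := Unit) (fun _ (_ : ℤ) => (1 : ℂ)) 1 (fun _ _ => by simp) ∅
    (Set.range (twist g)) (by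
      rintro _ ⟨θ, rfl⟩ n
      exact norm_twist hg θ n)
    (fun a s 𝒱 _ h𝒱 => ⟨Measure.dirac 0, inferInstance, specU_one h𝒱, fun δ hδ =>
      iso_half hG (K := fun _ => {0}) (fun _ => half_zero) (by
        rw [Set.iUnion_const]
        simp) δ hδ⟩) ε hε
  refine ⟨H, hH1, H * H, fun N hN g' hg' θ => ?_⟩
  rw [Set.mem_singleton_iff] at hg'
  subst hg'
  refine le_trans (le_of_eq ?_) (h1 H le_rfl N hN (Set.notMem_empty N) _ ⟨θ, rfl⟩ ())
  refine sum_congr rfl fun x _ => ?_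
  congr 2
  refine sum_nbij' (fun n : ℕ => (n : ℤ)) (fun m : ℤ => m.toNat) ?_ ?_ ?_ ?_ ?_
  · intro n hn
    rw [mem_Ioc] at hn ⊢
    omega
  · intro m hm
    rw [mem_Ioc] at hm ⊢
    omega
  · intro n _; simp
  · intro m hm
    rw [mem_Ioc] at hm
    omega
  · intro n hn
    rw [mem_Ioc] at hn
    rw [ext0, if_pos (by omega)]
    simp [tw, twist]

theorem small_mu : Small {fun n : ℕ => ((ArithmeticFunction.moebius n : ℤ) : ℂ)} := by
  have h : (fun n : ℕ => ((ArithmeticFunction.moebius n : ℤ) : ℂ)) = muf := rfl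
  rw [h]
  refine small_of (fun n => ?_) good_mu
  show ‖((ArithmeticFunction.moebius n : ℤ) : ℂ)‖ ≤ 1
  rw [Complex.norm_intCast]
  exact_mod_cast ArithmeticFunction.abs_moebius_le_one

theorem small_la : Small {fun n : ℕ => (((-1) ^ ArithmeticFunction.cardFactors n : ℤ) : ℂ)} := by
  have h : (fun n : ℕ => (((-1) ^ ArithmeticFunction.cardFactors n : ℤ) : ℂ)) = laf := by
    funext n
    unfold laf
    push_cast
    rfl
  rw [h]
  refine small_of (fun n => ?_) good_la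
  unfold laf
  simp

end Pool.Agent.L0h38.TM
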