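import Pool.Agent.L0h38.TM.StmA

/-! # Board TM (helper38), module SPD -/

set_option autoImplicit false

open Filter Topology Finset MeasureTheory

namespace Pool.Agent.L0h38.TM

theorem spd : S_SPD := by
  intro X _ _ _ u hR
  obtain ⟨R, hR⟩ := hR
  have hR0 : 0 ≤ R := (norm_nonneg _).trans (hR 0)
  obtain ⟨ρ, hρ⟩ : ∃ ρ : ℕ → (X →L[ℂ] ℂ), DenseRange ρ :=
    ⟨TopologicalSpace.denseSeq _, TopologicalSpace.denseRange_denseSeq _⟩
  have hK : IsCompact (Set.pi Set.univ fun i : ℕ => Metric.closedBall (0 : ℂ) (‖ρ i‖ * R)) :=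
    isCompact_univ_pi fun i => isCompact_closedBall 0 _
  obtain ⟨a, -, φ, hφ, hlim⟩ := hK.tendsto_subseq (x := fun n i => ρ i (u n)) (fun n i _ => by
    rw [mem_closedBall_zero_iff]
    exact (ρ i).le_of_opNorm_le_of_le le_rfl (hR n))
  refine ⟨φ, hφ, fun r => ?_⟩
  rw [Metric.cauchySeq_iff']
  intro ε hε
  have hδ : 0 < ε / (3 * (R + 1)) := by positivity
  obtain ⟨i, hi⟩ := hρ.exists_dist_lt r hδ
  have hci : CauchySeq fun j => ρ i (u (φ j)) := (tendsto_pi_nhds.1 hlim i).cauchySeq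
  obtain ⟨N, hN⟩ := (Metric.cauchySeq_iff'.1 hci) (ε / 3) (by positivity)
  have key : ∀ n, ‖r (u n) - ρ i (u n)‖ < ε / 3 := by
    intro n
    have h1 : ‖(r - ρ i) (u n)‖ ≤ ε / (3 * (R + 1)) * R :=
      (r - ρ i).le_of_opNorm_le_of_le (by rw [← dist_eq_norm]; exact hi.le) (hR n)
    have h2 : ε / (3 * (R + 1)) * R < ε / 3 := by
      rw [div_mul_eq_mul_div, div_lt_div_iff₀ (by positivity) (by norm_num)]
      nlinarith
    exact lt_of_le_of_lt h1 h2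
  refine ⟨N, fun n hn => ?_⟩
  have h1 := key (φ n)
  have h2 := key (φ N)
  have h3 := hN n hn
  rw [dist_eq_norm] at h3 ⊢
  have h4 : r (u (φ n)) - r (u (φ N)) = (r (u (φ n)) - ρ i (u (φ n))) +
      (ρ i (u (φ n)) - ρ i (u (φ N))) - (r (u (φ N)) - ρ i (u (φ N))) := by ring
  rw [h4]
  have h5 := norm_sub_le ((r (u (φ n)) - ρ i (u (φ n))) + (ρ i (u (φ n)) - ρ i (u (φ N))))
    (r (u (φ N)) - ρ i (u (φ N)))
  have h6 := norm_add_le (r (u (φ n)) - ρ i (u (φ n))) (ρ i (u (φ n)) - ρ i (u (φ N)))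
  linarith

end Pool.Agent.L0h38.TM
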