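import Mathlib

/-!
# Statements for the board TM (Mathlib only): Moebius disjointness and tame orbits (MP_7a8f48_an)
-/

set_option autoImplicit false

open Filter Topology Finset MeasureTheory

namespace Pool.Agent.L0h38.TM

/-- ATM: a finite measure on the circle for which the characters `e(nη)`, `n ≥ 0`, are totally bounded in `L²` is
carried by a countable set -/
def S_ATM : Prop :=
  ∀ σ : Measure UnitAddCircle, IsFiniteMeasure σ →
    (∀ ε : ℝ, 0 < ε → ∃ F : Finset ℕ, ∀ n : ℕ, ∃ m ∈ F,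
      ∫ η, ‖(fourier (n : ℤ) η : ℂ) - fourier (m : ℤ) η‖ ^ 2 ∂σ < ε) →
    ∃ S : Set UnitAddCircle, S.Countable ∧ σ Sᶜ = 0

/-- TBD: if each sequence of indices has a subsequence along which `F` converges pointwise, then `F` is totally
bounded in `L²` -/
def S_TBD : Prop :=
  ∀ (X : Type) [MeasurableSpace X] (ν : Measure X), IsProbabilityMeasure ν → ∀ F : ℕ → X → ℂ,
    (∀ n, Measurable (F n)) → (∃ R : ℝ, ∀ n x, ‖F n x‖ ≤ R) →
    (∀ k : ℕ → ℕ, ∃ φ : ℕ → ℕ, StrictMono φ ∧ ∀ x, CauchySeq fun j => F (k (φ j)) x) →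
    ∀ ε : ℝ, 0 < ε → ∃ S : Finset ℕ, ∀ n : ℕ, ∃ m ∈ S, ∫ x, ‖F n x - F m x‖ ^ 2 ∂ν < ε

/-- SPD: in a normed space with separable dual each bounded sequence has a weakly Cauchy subsequence -/
def S_SPD : Prop :=
  ∀ (X : Type) [NormedAddCommGroup X] [NormedSpace ℂ X] [TopologicalSpace.SeparableSpace (X →L[ℂ] ℂ)]
    (u : ℕ → X), (∃ R : ℝ, ∀ n, ‖u n‖ ≤ R) →
      ∃ φ : ℕ → ℕ, StrictMono φ ∧ ∀ ρ : X →L[ℂ] ℂ, CauchySeq fun j => ρ (u (φ j))

end Pool.Agent.L0h38.TM
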