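import Pool.Agent.R296.SM.CommU
import Pool.Agent.R296.SM.Half
import Pool.Agent.L0h38.TM.StmA

/-!
# Statements for the board TM: Moebius disjointness and tame orbits (MP_7a8f48_an)

Universe level 0 throughout (`Type`).
-/

set_option autoImplicit false

open Filter Topology Finset MeasureTheory
open Pool.Agent.R296.SM

namespace Pool.Agent.L0h38.TM

/-- `g(n) e(n θ)` -/
noncomputable def tw (g : ℕ → ℂ) (θ : UnitAddCircle) (n : ℕ) : ℂ := g n * fourier (n : ℤ) θ

/-- all the twists of the elements of `G` -/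
def Tw (G : Set (ℕ → ℂ)) : Set (ℕ → ℂ) := {h | ∃ g ∈ G, ∃ θ : UnitAddCircle, h = tw g θ}

/-- the twisted sums over short windows are small in mean square, uniformly in the family and the twist -/
def Small (G : Set (ℕ → ℂ)) : Prop :=
  ∀ ε : ℝ, 0 < ε → ∃ H : ℕ, 1 ≤ H ∧ ∃ N₀ : ℕ, ∀ N ≥ N₀, ∀ g ∈ G, ∀ θ : UnitAddCircle,
    ∑ x ∈ range N, ‖∑ m ∈ Ioc x (x + H), tw g θ m‖ ^ 2 ≤ ε * H ^ 2 * N

/-- HZX: existence of the spectral measure of a continuous function for an invariant measure -/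
def S_HZX : Prop :=
  ∀ (X : Type) [MetricSpace X] [CompactSpace X] [MeasurableSpace X] [BorelSpace X] (T : X → X), Continuous T →
    ∀ ν : Measure X, IsProbabilityMeasure ν → MeasurePreserving T ν ν → ∀ f : C(X, ℂ),
      ∃ σ : Measure UnitAddCircle, IsFiniteMeasure σ ∧ SpX T ν f σ

/-- GAL: a family with small windows is isolated from the measures carried by countable sets -/
def S_GAL : Prop :=
  ∀ G : Set (ℕ → ℂ), (∀ g ∈ G, ∀ n, ‖g n‖ ≤ 1) → Small G →
    ∀ σ : Measure UnitAddCircle, IsFiniteMeasure σ → ∀ S : Set UnitAddCircle, S.Countable → σ Sᶜ = 0 →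
      ∀ δ : ℝ, 0 < δ → Isolates ∅ (Tw G) σ δ

end Pool.Agent.L0h38.TM
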