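import Pool.Agent.L0h38.TM.StmA

/-! # Board TM (helper38), module TBD -/

set_option autoImplicit false

open Filter Topology Finset MeasureTheory

namespace Pool.Agent.L0h38.TM

theorem tbd : S_TBD := by
  intro X _ ν hν F hF hR hk ε hε
  obtain ⟨R, hR⟩ := hR
  by_contra hcon
  push Not at hcon
  obtain ⟨f, -, hf⟩ := exists_seq_of_forall_finset_exists (fun _ : ℕ => True)
    (fun m n : ℕ => ε ≤ ∫ x, ‖F n x - F m x‖ ^ 2 ∂ν) (fun S _ => by
      obtain ⟨n, hn⟩ := hcon S
      exact ⟨n, trivial, hn⟩)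
  obtain ⟨φ, hφ, hc⟩ := hk f
  have hlim : Tendsto (fun j : ℕ => ∫ x, ‖F (f (φ (j + 1))) x - F (f (φ j)) x‖ ^ 2 ∂ν) atTop
      (𝓝 (∫ _, (0 : ℝ) ∂ν)) := by
    refine tendsto_integral_of_dominated_convergence (fun _ => (2 * R) ^ 2) ?_ ?_ ?_ ?_
    · intro j
      exact (((hF _).sub (hF _)).norm.pow_const 2).aestronglyMeasurable
    · exact integrable_const _
    · intro j
      refine Eventually.of_forall fun x => ?_
      rw [Real.norm_of_nonneg (by positivity)]
      refine pow_le_pow_left₀ (norm_nonneg _) ?_ 2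
      have h1 := norm_sub_le (F (f (φ (j + 1))) x) (F (f (φ j)) x)
      have h2 := hR (f (φ (j + 1))) x
      have h3 := hR (f (φ j)) x
      linarith
    · refine Eventually.of_forall fun x => ?_
      obtain ⟨a, ha⟩ := cauchySeq_tendsto_of_complete (hc x)
      have h1 := (ha.comp (tendsto_add_atTop_nat 1)).sub ha
      rw [sub_self] at h1
      have h2 := h1.norm.pow 2
      rw [norm_zero, zero_pow two_ne_zero] at h2
      exact h2
  rw [integral_zero] at hlim
  have h0 : ε ≤ 0 := ge_of_tendsto' hlim fun j => hf (φ j) (φ (j + 1)) (hφ (Nat.lt_succ_self j))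
  exact absurd h0 (not_le.2 hε)

end Pool.Agent.L0h38.TM
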